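import Pool.Agent.Lib.MP_046423_co.Main

set_option autoImplicit false

namespace Pool.Agent.Results.MP_046423_co.Classification

open Finset Pool.Agent.Lib.MP_046423_co

open Classical in
/-- For odd `n`, the degrees `r` of regular distance magic graphs of order `n`. -/
theorem result (n r : ℕ) (hn : Odd n) :
    (∃ G : SimpleGraph (Fin n), G.IsRegularOfDegree r ∧
      ∃ f : Fin n → ℕ, Set.BijOn f Set.univ (Set.Icc 1 n) ∧
        ∃ k : ℕ, ∀ v, ∑ u ∈ G.neighborFinset v, f u = k) ↔
    (r = 0 ∨ (r + 3 = n ∧ 3 ∣ n) ∨ (Even r ∧ 4 ≤ r ∧ r + 5 ≤ n ∧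
      (n, r) ∉ ({(9, 4), (11, 4), (13, 4), (15, 4), (11, 6), (13, 8)} : Set (ℕ × ℕ)))) := by
  obtain ⟨m, rfl⟩ := hn
  constructor
  · rintro ⟨G, hG, f, hf, k, hk⟩
    have e1 := G.sum_degrees_eq_twice_card_edges
    simp only [hG.degree_eq, sum_const, card_univ, Fintype.card_fin, smul_eq_mul] at e1
    obtain ⟨h, rfl⟩ : ∃ h, r = 2 * h := by
      have : Even ((2 * m + 1) * r) := ⟨_, by rw [e1, two_mul]⟩
      rw [Nat.even_mul] at this
      rcases this with ⟨a, ha⟩ | ⟨a, ha⟩
      · omega
      · exact ⟨a, by omega⟩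
    have e2 := G.degree_lt_card_verts 0
    rw [hG.degree_eq, Fintype.card_fin] at e2
    have hex : ∀ x : ℤ, ∃ v, x ∈ C m → (f v : ℤ) - (m + 1) = x := fun x => by
      by_cases hx : x ∈ C m
      · simp only [C, mem_Icc] at hx
        obtain ⟨v, -, hv⟩ := hf.surjOn (show (x + m + 1).toNat ∈ Set.Icc 1 (2 * m + 1) by
          rw [Set.mem_Icc]; omega)
        exact ⟨v, fun _ => by omega⟩
      · exact ⟨0, fun h => absurd h hx⟩
    choose g hg using hex
    have hm : ∀ u, (f u : ℤ) - (m + 1) ∈ C m := fun u => by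
      have := hf.mapsTo (Set.mem_univ u)
      simp only [C, mem_Icc, Set.mem_Icc] at this ⊢; omega
    have hgf : ∀ u, g ((f u : ℤ) - (m + 1)) = u := fun u =>
      hf.injOn (Set.mem_univ _) (Set.mem_univ _) (by have := hg _ (hm u); omega)
    have re : ∀ F : ℤ → ℤ, ∑ y ∈ C m, F y = ∑ u, F ((f u : ℤ) - (m + 1)) := fun F =>
      (sum_bij (fun u _ => (f u : ℤ) - (m + 1)) (fun u _ => hm u)
        (fun a _ b _ e => by rw [← hgf a, e, hgf b])
        (fun y hy => ⟨g y, mem_univ _, hg y hy⟩) (fun _ _ => rfl)).symm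
    have nb : ∀ (v : Fin (2 * m + 1)) (F : Fin (2 * m + 1) → ℤ),
        ∑ u, (if G.Adj v u then 1 else 0) * F u = ∑ u ∈ G.neighborFinset v, F u := fun v F => by
      rw [G.neighborFinset_eq_filter, sum_filter]
      exact sum_congr rfl fun u _ => by split_ifs <;> simp
    have d : ∀ v, ∑ u, (if G.Adj v u then (1 : ℤ) else 0) = 2 * h := fun v => by
      have := nb v fun _ => 1
      simp only [mul_one, sum_const, SimpleGraph.card_neighborFinset_eq_degree, hG.degree_eq,
        nsmul_eq_mul] at this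
      rw [this]; push_cast; ring
    have w : ∀ v, ∑ u, (if G.Adj v u then (1 : ℤ) else 0) * ((f u : ℤ) - (m + 1))
        = k - 2 * h * (m + 1) := fun v => by
      simp only [mul_sub, sum_sub_distrib, ← sum_mul, d v]
      rw [nb, ← hk v]; push_cast; ring
    have w0 : (k : ℤ) - 2 * h * (m + 1) = 0 := by
      have a : ∑ v, ∑ u, (if G.Adj v u then (1 : ℤ) else 0) * ((f u : ℤ) - (m + 1))
          = (2 * m + 1) * (k - 2 * h * (m + 1)) := by
        rw [sum_congr rfl fun v _ => w v]; simp; ring
      rw [sum_comm] at a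
      simp only [← sum_mul, G.adj_comm _ _, d] at a
      rw [← mul_sum, ← re (fun y => y), sum_C, mul_zero] at a
      exact (mul_eq_zero.1 a.symm).resolve_left (by omega)
    have z : Z 0 (C m) (2 * h) := by
      refine ⟨fun x y => if G.Adj (g x) (g y) then 1 else 0, fun x _ y _ => ?_, fun x _ y _ => ?_,
        fun x _ => by simp, fun x _ => ?_, fun x _ => ?_⟩
      · dsimp only; split_ifs <;> simp
      · simp only [G.adj_comm (g x)]
      · rw [re]; simp only [hgf, d]
      · rw [re]; simp only [hgf, w, w0]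
    have := (Z_iff_feas (by omega)).1 z
    unfold Feas at this
    simp only [Set.mem_insert_iff, Set.mem_singleton_iff, Prod.mk.injEq, Nat.even_iff]
    omega
  · intro hc
    simp only [Set.mem_insert_iff, Set.mem_singleton_iff, Prod.mk.injEq, Nat.even_iff] at hc
    obtain ⟨h, rfl⟩ : ∃ h, r = 2 * h := ⟨r / 2, by omega⟩
    have z := exists_of_feas m h (by unfold Feas; omega)
    obtain ⟨F, f1, f2⟩ := (Z_iff_ZB m (2 * h)).1 (by simpa using z)
    obtain ⟨G, hG⟩ : ∃ G : SimpleGraph (Fin (2 * m + 1)), ∀ u v, G.Adj u v ↔ F u v = true :=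
      ⟨{ Adj := fun u v => F u v = true
         symm := ⟨fun u v h => by rw [← h]; exact f1 _ v.2 _ u.2⟩
         loopless := ⟨fun u h => by rw [(f2 u u.2).1] at h; simp at h⟩ }, fun _ _ => Iff.rfl⟩
    have nb : ∀ (v : Fin (2 * m + 1)) (H : ℕ → ℤ), ∑ u ∈ G.neighborFinset v, H u
        = ∑ w ∈ range (2 * m + 1), (if F v w then 1 else 0) * H w := fun v H => by
      rw [G.neighborFinset_eq_filter, sum_filter, ← Fin.sum_univ_eq_sum_range
        (fun w => (if F v w then 1 else 0) * H w)]
      exact sum_congr rfl fun u _ => by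
        by_cases e : F v u = true
        · rw [if_pos e, if_pos ((hG v u).2 e), one_mul]
        · rw [if_neg e, if_neg (fun h => e ((hG v u).1 h)), zero_mul]
    have d : ∀ v : Fin (2 * m + 1), G.degree v = 2 * h := fun v => by
      have := nb v fun _ => 1
      simp only [mul_one, sum_const, SimpleGraph.card_neighborFinset_eq_degree, nsmul_eq_mul] at this
      rw [← cnt_eq, (f2 v v.2).2.1] at this
      exact_mod_cast this
    refine ⟨G, d, fun u => u + 1, ⟨fun u _ => ?_, fun a _ b _ e => ?_, fun y hy => ?_⟩,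
      2 * h * m + 2 * h, fun v => ?_⟩
    · rw [Set.mem_Icc]; have := u.2; dsimp only; omega
    · exact Fin.ext (by simpa using e)
    · rw [Set.mem_Icc] at hy
      exact ⟨⟨y - 1, by omega⟩, trivial, by dsimp only; omega⟩
    · rw [sum_add_distrib, sum_const, SimpleGraph.card_neighborFinset_eq_degree, d v, smul_eq_mul,
        mul_one]
      congr 1
      have := nb v fun w => w
      rw [← wt_eq, (f2 v v.2).2.2] at this
      exact_mod_cast this

end Pool.Agent.Results.MP_046423_co.Classification
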